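import Pool.Agent.Work.MP_859ada_lc.Std.Root

/-!
# ROOT lies in the counting hierarchy

Until now the best upper bound for ROOT was the existential theory of the reals (and hence
PSPACE). Outline of the proof. The polynomial `f` of a program of length `L` is replaced by the
monic integer polynomial `F = X ^ N + M ^ 3 * f ^ 2 - M` (`N = 2 ^ (L + 2)`,
`M = 2 ^ (2 ^ (3 * L + 4))`), which is positive on the real line if `f` has no real root, and
negative somewhere otherwise. By Thom's lemma and repeated halving, at most `L + 2` derivatives of
`F` separate one real root of odd multiplicity from the others; with dyadic approximations of their
values (polynomially many bits, which are guessed) one writes down a polynomial `g` for which the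
resultant of `F` and `g` is negative; for `F` without real roots all these resultants are
nonnegative. The residues of the resultant modulo primes of polynomial length are exponentially
long sums and products over a prime field (Newton's identities and the extraction of coefficients
by sums over the field), and the sign of an integer given by its residues is found by Chinese
remaindering. This is carried out in an arithmetical version of the counting hierarchy (relations
on numbers in binary, generated from the graphs of addition and multiplication), which is then
translated to bit strings and Turing machines.
-/

set_option autoImplicit false

namespace Pool.Agent.Work.MP_859ada_lc.Old.CountingHierarchy

open Pool.Agent.Work.MP_859ada_lc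

/-- **ROOT is in the counting hierarchy**, together with all languages which reduce to it. -/
theorem result : ∃ k : ℕ, ∀ L : List Bool → Prop, Red L ROOTL → CLevel k L := exists_level

end Pool.Agent.Work.MP_859ada_lc.Old.CountingHierarchy
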